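import Pool.Agent.D71.Final

/-!
A smooth complete non-projective complex threefold `X` with a maximal quasi-projective open subset
`U` such that an irreducible component of `X \ U` is a non-rational curve (an elliptic curve).

Varieties are given by their sets of local rings inside the function field (Zariski's models).
Example: let `Z` be the `P^1`-bundle over `P^2` given by the two bilinear/quartic equations
`x₀w₀ + x₁w₁ + x₂w₂ = 0`, `Q₀w₀ + Q₁w₁ + C w₃ = 0` (in the product of `P^2` and `P^3`), whose
projection to `P^3` contracts the curve `B` over the point `w = (0:0:0:1)`, the plane cubic `C = 0`;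
`X` arises from `Z` by one modification (four further charts) over the point `w = (0:0:1:0)`.
-/

namespace Pool.Agent.Results.MP_d71e86_ag.NonRationalComponent

open D71

/-- There are a smooth complete non-projective threefold `X` over `ℂ`, a maximal quasi-projective
open subset `U` of `X`, and an irreducible component of `X \ U`, with generic point `O`, which is a
curve (its function field, the residue field of `O`, has transcendence degree `1`) and is not
rational (its function field is not isomorphic to `ℂ(t)` over `ℂ`). -/
theorem result : ∃ (K : Type) (_ : Field K) (_ : Algebra ℂ K) (X : Set (Subalgebra ℂ K)),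
    IsThreefold X ∧ IsComplete X ∧ IsSmooth X ∧ ¬ IsProjective X ∧
    ∃ U : Set (Subalgebra ℂ K), IsMaxQPOpen X U ∧
      ∃ (O : Subalgebra ℂ K) (_ : IsLocalRing O), IsGenericPtOfComponent X U O ∧
        Algebra.trdeg ℂ (IsLocalRing.ResidueField O) = 1 ∧
        IsEmpty (IsLocalRing.ResidueField O ≃ₐ[ℂ] RatFunc ℂ) :=
  main

end Pool.Agent.Results.MP_d71e86_ag.NonRationalComponent
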